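import Pool.Agent.Helper74.HG.GoalsG

/-!
# Project HG, packet PPO (poles of power series)
-/

set_option autoImplicit false

namespace Pool.Agent.Helper81.HG.PPO

open Polynomial Pool.Agent.Helper74.HG

theorem coe_comp (u : ℂ) (A : ℂ[X]) :
    ((A.comp (C u * X) : ℂ[X]) : PowerSeries ℂ) = PowerSeries.rescale u (A : PowerSeries ℂ) := by
  ext n
  rw [Polynomial.coeff_coe, PowerSeries.coeff_rescale, Polynomial.coeff_coe,
    Polynomial.comp_C_mul_X_coeff, mul_comm]

theorem coe_lin (a : ℂ) : ((1 - C a * X : ℂ[X]) : PowerSeries ℂ) =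
    1 - PowerSeries.C a * PowerSeries.X := by
  rw [Polynomial.coe_sub, Polynomial.coe_one, Polynomial.coe_mul, Polynomial.coe_C,
    Polynomial.coe_X]

theorem coe_ne {D : ℂ[X]} (h : D ≠ 0) : (D : PowerSeries ℂ) ≠ 0 := by
  intro h1
  apply h
  apply Polynomial.coe_injective ℂ
  rw [h1, Polynomial.coe_zero]

/-- Lowest terms. -/
theorem lowest {S' : PowerSeries ℂ} {D N : ℂ[X]} (hD : D ≠ 0)
    (h : (D : PowerSeries ℂ) * S' = (N : PowerSeries ℂ)) :
    ∃ g A B : ℂ[X], D = g * B ∧ N = g * A ∧ IsCoprime A B ∧ B ≠ 0 ∧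
      (B : PowerSeries ℂ) * S' = (A : PowerSeries ℂ) := by
  classical
  obtain ⟨B, hB⟩ := EuclideanDomain.gcd_dvd_left D N
  obtain ⟨A, hA⟩ := EuclideanDomain.gcd_dvd_right D N
  have hg := EuclideanDomain.gcd_eq_gcd_ab D N
  set g := EuclideanDomain.gcd D N with hgd
  have hg0 : g ≠ 0 := by
    intro h0
    apply hD
    rw [hB, h0, zero_mul]
  have hB0 : B ≠ 0 := by
    intro h0
    apply hD
    rw [hB, h0, mul_zero]
  refine ⟨g, A, B, hB, hA, ?_, hB0, ?_⟩
  · refine ⟨EuclideanDomain.gcdB D N, EuclideanDomain.gcdA D N, ?_⟩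
    apply mul_left_cancel₀ hg0
    rw [mul_one]
    calc g * (EuclideanDomain.gcdB D N * A + EuclideanDomain.gcdA D N * B)
        = (g * B) * EuclideanDomain.gcdA D N + (g * A) * EuclideanDomain.gcdB D N := by ring
      _ = D * EuclideanDomain.gcdA D N + N * EuclideanDomain.gcdB D N := by rw [← hB, ← hA]
      _ = g := hg.symm
  · apply mul_left_cancel₀ (coe_ne hg0)
    rw [← mul_assoc, ← Polynomial.coe_mul, ← Polynomial.coe_mul, ← hB, ← hA]
    exact h

theorem poleO_of {S' : PowerSeries ℂ} {D N : ℂ[X]} (hD : D ≠ 0)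
    (h : (D : PowerSeries ℂ) * S' = (N : PowerSeries ℂ)) (c : ℂ) (k m : ℕ)
    (h1 : (X - C c) ^ (k + m) ∣ D) (h2 : m = 0 ∨ ¬(X - C c) ^ (k + 1) ∣ N) :
    PoleO S' c m := by
  obtain ⟨g, A, B, hB, hA, hcop, hB0, hS⟩ := lowest hD h
  refine ⟨A, B, hcop, hB0, hS, ?_⟩
  rcases h2 with h2 | h2
  · rw [h2, pow_zero]
    exact one_dvd _
  · have hg0 : g ≠ 0 := by
      intro h0
      apply hD
      rw [hB, h0, zero_mul]
    obtain ⟨q, hq, hnq⟩ := Polynomial.exists_eq_pow_rootMultiplicity_mul_and_not_dvd g hg0 c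
    set i := rootMultiplicity c g with hi
    have hik : i ≤ k := by
      by_contra hcon
      apply h2
      rw [hA, hq]
      exact Dvd.dvd.mul_right (Dvd.dvd.mul_right (pow_dvd_pow _ (by omega)) _) _
    have hX : (X - C c : ℂ[X]) ≠ 0 := Polynomial.X_sub_C_ne_zero c
    have h3 : (X - C c) ^ (k + m - i) ∣ q * B := by
      have h4 : (X - C c) ^ i * (X - C c) ^ (k + m - i) ∣ (X - C c) ^ i * (q * B) := by
        rw [← pow_add, show i + (k + m - i) = k + m by omega, ← mul_assoc, ← hq, ← hB]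
        exact h1
      exact (mul_dvd_mul_iff_left (pow_ne_zero _ hX)).1 h4
    have h5 := (Polynomial.prime_X_sub_C c).pow_dvd_of_dvd_mul_left (k + m - i) hnq h3
    exact (pow_dvd_pow _ (by omega)).trans h5

theorem t : PPO := by
  intro S S' u hu _ hSS
  -- the pole of a rational function
  have key : ∀ (T₀ : ℂ) (m : ℕ), PoleO S T₀ m → ∃ D N A : ℂ[X], D ≠ 0 ∧
      (D : PowerSeries ℂ) * S' = (N : PowerSeries ℂ) ∧ (X - C (u⁻¹ * T₀)) ^ m ∣ D ∧
      N = (1 - C (u ^ 2) * X) * A ∧ (m ≠ 0 → A.eval (u⁻¹ * T₀) ≠ 0) := by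
    rintro T₀ m ⟨A, B, hcop, hB0, hBS, hdvd⟩
    refine ⟨(1 - C u * X) * B.comp (C u * X), (1 - C (u ^ 2) * X) * A.comp (C u * X),
      A.comp (C u * X), ?_, ?_, ?_, rfl, ?_⟩
    · refine mul_ne_zero ?_ ?_
      · intro h
        have h1 := congrArg (fun p => p.coeff 0) h
        simp at h1
      · intro h
        apply hB0
        ext n
        have h1 := congrArg (fun p => p.coeff n) h
        simp only [Polynomial.comp_C_mul_X_coeff, Polynomial.coeff_zero] at h1 ⊢
        exact (mul_eq_zero.1 h1).resolve_right (pow_ne_zero _ hu)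
    · rw [Polynomial.coe_mul, Polynomial.coe_mul, coe_lin, coe_lin, coe_comp, coe_comp]
      calc (1 - PowerSeries.C u * PowerSeries.X) *
            PowerSeries.rescale u (B : PowerSeries ℂ) * S'
          = PowerSeries.rescale u (B : PowerSeries ℂ) *
            ((1 - PowerSeries.C u * PowerSeries.X) * S') := by ring
        _ = (1 - PowerSeries.C (u ^ 2) * PowerSeries.X) *
            (PowerSeries.rescale u (B : PowerSeries ℂ) * PowerSeries.rescale u S) := by
          rw [hSS]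
          ring
        _ = _ := by rw [← map_mul, hBS]
    · obtain ⟨Q, hQ⟩ := hdvd
      refine Dvd.dvd.mul_left ?_ _
      have h1 : (C u * X - C T₀ : ℂ[X]) = C u * (X - C (u⁻¹ * T₀)) := by
        rw [mul_sub, ← C_mul, ← mul_assoc, mul_inv_cancel₀ hu, one_mul]
      rw [hQ, Polynomial.mul_comp, Polynomial.pow_comp, Polynomial.sub_comp, Polynomial.X_comp,
        Polynomial.C_comp, h1, mul_pow]
      exact Dvd.dvd.mul_right (Dvd.dvd.mul_left dvd_rfl _) _
    · intro hm h0
      rw [Polynomial.eval_comp, Polynomial.eval_mul, Polynomial.eval_C, Polynomial.eval_X,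
        ← mul_assoc, mul_inv_cancel₀ hu, one_mul] at h0
      have hBe : B.eval T₀ = 0 := by
        have h1 : (X - C T₀) ∣ B := (dvd_pow_self _ hm).trans hdvd
        exact Polynomial.dvd_iff_isRoot.1 h1
      obtain ⟨a, b, hab⟩ := hcop
      have h2 := congrArg (Polynomial.eval T₀) hab
      rw [Polynomial.eval_add, Polynomial.eval_mul, Polynomial.eval_mul, h0, hBe, mul_zero,
        mul_zero, add_zero, Polynomial.eval_one] at h2
      exact zero_ne_one h2
  have hroot : ∀ (c : ℂ) (A : ℂ[X]), (X - C c) ∣ A → A.eval c = 0 := fun c A h =>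
    Polynomial.dvd_iff_isRoot.1 h
  intro T₀ m
  constructor
  · intro hT hP
    obtain ⟨D, N, A, hD, hDS, hdvd, hN, hA⟩ := key T₀ m hP
    refine poleO_of hD hDS _ 0 m (by rwa [zero_add]) ?_
    by_cases hm : m = 0
    · exact Or.inl hm
    · right
      rw [zero_add, pow_one]
      intro h
      have h1 := hroot _ _ h
      rw [hN, Polynomial.eval_mul] at h1
      rcases mul_eq_zero.1 h1 with h2 | h2
      · rw [Polynomial.eval_sub, Polynomial.eval_one, Polynomial.eval_mul, Polynomial.eval_C,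
          Polynomial.eval_X, sq, mul_assoc, ← mul_assoc u u⁻¹, mul_inv_cancel₀ hu, one_mul,
          sub_eq_zero] at h2
        exact hT (eq_inv_of_mul_eq_one_right h2.symm)
      · exact hA hm h2
  · intro hP
    obtain ⟨D, N, A, hD, hDS, hdvd, hN, hA⟩ := key u⁻¹ (m + 1) hP
    refine poleO_of hD hDS _ 1 m (by rwa [add_comm]) ?_
    right
    intro h
    have h1 : (1 - C (u ^ 2) * X : ℂ[X]) = C (-(u ^ 2)) * (X - C (u⁻¹ * u⁻¹)) := by
      rw [mul_sub, ← C_mul, C_neg, show -(u ^ 2) * (u⁻¹ * u⁻¹) = -1 by field_simp, C_neg, C_1]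
      ring
    rw [hN, h1, show 1 + 1 = 2 from rfl, sq, mul_assoc, mul_comm (C (-(u ^ 2))), mul_assoc] at h
    have h2 := (mul_dvd_mul_iff_left (Polynomial.X_sub_C_ne_zero (u⁻¹ * u⁻¹))).1 h
    have h3 := hroot _ _ h2
    rw [Polynomial.eval_mul, Polynomial.eval_C] at h3
    rcases mul_eq_zero.1 h3 with h4 | h4
    · exact hA (Nat.succ_ne_zero _) h4
    · exact pow_ne_zero 2 hu (neg_eq_zero.1 h4)

end Pool.Agent.Helper81.HG.PPO
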